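import Pool.Agent.Helper68_Leo4.Basic
import Mathlib.NumberTheory.RamificationInertia.Valuation

/-! Module VAL of squad leo4: a prime of a quadratic extension of `ℚ(√5)` above a prime element. -/

set_option autoImplicit false

open NumberField IsDedekindDomain WithZero Module
open Pool.Agent.Helper85_Leo

namespace Pool.Agent.Leo4.H81

section

variable {k : Type} [Field k] [NumberField k] {f : k}

theorem isInt (hf : f ^ 2 = f + 1) : IsIntegral ℤ f := by
  refine ⟨Polynomial.X ^ 2 - Polynomial.X - 1, ?_, ?_⟩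
  · have h : (Polynomial.X ^ 2 - Polynomial.X - 1 : Polynomial ℤ) =
        Polynomial.X ^ 2 - (Polynomial.X + 1) := by ring
    rw [h]
    apply Polynomial.monic_X_pow_sub
    compute_degree
    norm_num
  · simp only [Polynomial.eval₂_sub, Polynomial.eval₂_pow, Polynomial.eval₂_X,
      Polynomial.eval₂_one]
    linear_combination hf

theorem isIntEv (hf : f ^ 2 = f + 1) (x : O) : IsIntegral ℤ (ev f x) := by
  unfold ev
  exact (isIntegral_algebraMap (R := ℤ) (A := k) (x := x.re)).add
    ((isIntegral_algebraMap (R := ℤ) (A := k) (x := x.im)).mul (isInt hf))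

/-- the map to the ring of integers -/
noncomputable def io (hf : f ^ 2 = f + 1) : O →+* 𝓞 k :=
  RingHom.codRestrict (evHom f hf) (integralClosure ℤ k) (fun x => isIntEv hf x)

theorem io_coe (hf : f ^ 2 = f + 1) (x : O) : ((io hf x : 𝓞 k) : k) = ev f x := rfl

theorem ev_inj (hf : f ^ 2 = f + 1) {x : O} (h : ev f x = 0) : x = 0 := by
  have h1 := ev_mul_ev_star hf x
  rw [h, zero_mul] at h1
  exact nm_eq_zero (by exact_mod_cast h1.symm)

theorem io_bij (hO : OkrStmt) (hk : finrank ℚ k = 2) (hf : f ^ 2 = f + 1) :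
    Function.Bijective (io hf) := by
  constructor
  · rw [injective_iff_map_eq_zero]
    intro x hx
    apply ev_inj hf
    rw [← io_coe hf, hx]
    rfl
  · intro y
    obtain ⟨x, hx⟩ := hO.2.2.2.2.2.2.2.2.2.2 k f hk hf (y : k) y.2
    refine ⟨x, ?_⟩
    apply RingOfIntegers.ext
    rw [io_coe, hx]

theorem val (hO : OkrStmt) : ValStmt := by
  intro k K _ _ _ _ _ f hk hf hK p hp
  have hb := io_bij hO hk hf
  have hdvd : ∀ a b : O, io hf a ∣ io hf b ↔ a ∣ b := by
    intro a b
    constructor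
    · rintro ⟨c, hc⟩
      obtain ⟨c', rfl⟩ := hb.2 c
      rw [← map_mul] at hc
      exact ⟨c', hb.1 hc⟩
    · exact fun h => map_dvd _ h
  have hp0 : io hf p ≠ 0 := fun h => hp.ne_zero (hb.1 (h.trans (map_zero _).symm))
  have hpp : Prime (io hf p) := by
    refine ⟨hp0, ?_, ?_⟩
    · intro hu
      apply hp.not_unit
      rw [isUnit_iff_dvd_one] at hu ⊢
      rw [← hdvd, map_one]
      exact hu
    · intro a b hab
      obtain ⟨a', rfl⟩ := hb.2 a
      obtain ⟨b', rfl⟩ := hb.2 b
      rw [← map_mul, hdvd] at hab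
      rw [hdvd, hdvd]
      exact hp.dvd_or_dvd hab
  have hPp : (Ideal.span {io hf p}).IsPrime := (Ideal.span_singleton_prime hp0).2 hpp
  have hPb : Ideal.span {io hf p} ≠ ⊥ := by
    rw [Ne, Ideal.span_singleton_eq_bot]
    exact hp0
  let v : HeightOneSpectrum (𝓞 k) := ⟨Ideal.span {io hf p}, hPp, hPb⟩
  haveI hmax : (Ideal.span {io hf p}).IsMaximal := v.isMaximal
  obtain ⟨Q, hQm, hQl⟩ := Ideal.exists_maximal_ideal_liesOver_of_isIntegral
    (Ideal.span {io hf p}) (S := 𝓞 K)
  have hQ0 : Q ≠ ⊥ := Ideal.ne_bot_of_liesOver_of_ne_bot hPb Q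
  let q : HeightOneSpectrum (𝓞 K) := ⟨Q, hQm.isPrime, hQ0⟩
  haveI : q.asIdeal.LiesOver v.asIdeal := hQl
  haveI := hQm.isPrime
  haveI : NoZeroSMulDivisors (𝓞 k) (𝓞 K) := ⟨by
    intro c x hcx
    exact smul_eq_zero.1 hcx⟩
  have he2 : v.asIdeal.ramificationIdx' q.asIdeal ≤ 2 := by
    rw [← hK]
    exact Ideal.ramificationIdx_le_finrank (𝓞 K) k K (p := v.asIdeal) q.asIdeal
  have he0 : v.asIdeal.ramificationIdx' q.asIdeal ≠ 0 :=
    Ideal.IsDedekindDomain.ramificationIdx'_ne_zero_of_liesOver q.asIdeal v.ne_bot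
  refine ⟨q, v.asIdeal.ramificationIdx' q.asIdeal, by omega, ?_, ?_⟩
  · intro x X hX
    have h1 : X = algebraMap (𝓞 k) (𝓞 K) (io hf x) := by
      apply RingOfIntegers.ext
      rw [hX]
      rfl
    rw [h1, ← Ideal.mem_of_liesOver (P := q.asIdeal) (p := v.asIdeal)]
    change io hf x ∈ Ideal.span {io hf p} ↔ _
    rw [Ideal.mem_span_singleton, hdvd]
  · intro x hx
    have hx0 : io hf x ≠ 0 := fun h => hx (hb.1 (h.trans (map_zero _).symm))
    have h1 : ev f x = algebraMap (𝓞 k) k (io hf x) := rfl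
    have h2 : multiplicity v.asIdeal (Ideal.span {io hf x}) = multiplicity p x := by
      apply multiplicity_eq_of_emultiplicity_eq
      rw [emultiplicity_eq_emultiplicity_iff]
      intro n
      change Ideal.span {io hf p} ^ n ∣ _ ↔ _
      rw [Ideal.span_singleton_pow, Ideal.dvd_span_singleton, Ideal.mem_span_singleton, ← map_pow,
        hdvd]
    rw [← HeightOneSpectrum.valuation_liesOver K v q, h1, HeightOneSpectrum.valuation_of_algebraMap,
      HeightOneSpectrum.intValuation_eq_exp_neg_multiplicity v hx0, h2, ← exp_nsmul]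
    congr 1
    simp

end

end Pool.Agent.Leo4.H81
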